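import Pool.Graph.R_pool_sql_team_seeded_1acbe0a2.Results.MP_c2409d_nt.RationalLines
import Pool.Agent.H48.GM.HeightGame

/-!
# Rohrlich's conjecture and the game of the height, for all rational lines with one strategy

Let `c_1, …, c_r` be nonzero integers and `b_1, …, b_r` rational numbers. We consider the products
`Γ(c_1 x + b_1) ⋯ Γ(c_r x + b_r)` for rational `x`, that is, the rational points of an arbitrary rational line of `ℚ ^ r`
none of whose coordinates is constant. The open direction of the conjecture says that the identity for the fractional parts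
(`Identity`) holds if the product is `β π ^ (r / 2)` with `β` algebraic. The height `H(x)` of a rational number is the
maximum of `|numerator|` and denominator.

Two players, Compass and Adversary, write down the digits of a positive integer `H` in a base `q`, the leading digit
first. Adversary decides before each step who makes the move, and he plays almost always: Compass gets only `κ D` moves (and
a constant number of moves), if `H` has at most `D` digits; here `κ > 0` is arbitrarily small. Compass can make sure that for
ALL the rational numbers `x` of height `H` (in compact sets without poles) the conjecture holds in bounded degree and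
height: if the product is `β π ^ (r / 2)` with `β` a root of a nonzero integer polynomial of degree at most `δ` and with
coefficients at most `H ^ A`, then the identity holds. There is ONE strategy for all `r`, `c`, `b`, `δ`, `A`, `κ` and all
the compact sets: a rule `σ` that names a digit after every finite sequence of digits. Only the digits written before the
last move of Compass matter, `H` may go on arbitrarily.

The number of exceptional points of height at most `T` on one line is from the library (`RationalLines`).
-/

set_option autoImplicit false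

namespace Pool.Agent.Results.MP_c2409d_nt.HeightGame

open RationalLines (Identity AlgebraicMultiple Failures)

/-- the height of a rational number -/
def height (x : ℚ) : ℕ := max x.num.natAbs x.den

/-- the first `n` terms of `x` -/
def play (x : ℕ → ℕ) (n : ℕ) : List ℕ := (List.range n).map x

/-- the number of the first `n` terms of `x` which are the ones named by the rule `σ` -/
def moves (σ : List ℕ → ℕ) (x : ℕ → ℕ) (n : ℕ) : ℕ :=
  ((Finset.range n).filter fun i => x i = σ (play x i)).card

/-- the real numbers `t`, `|t| ≤ R`, for which no `c_i t + b_i` is at a distance less than `1 / (R + 1)` from one of the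
poles `0, -1, -2, …` of the Gamma function; every compact set without poles is contained in one of these sets -/
def region {r : ℕ} (c : Fin r → ℤ) (b : Fin r → ℚ) (R : ℕ) : Set ℝ :=
  {t | |t| ≤ R ∧ ∀ i, ∀ k : ℕ, 1 / ((R : ℝ) + 1) ≤ |(c i : ℝ) * t + b i + k|}

theorem region_compact {r : ℕ} (c : Fin r → ℤ) (b : Fin r → ℚ) (R : ℕ) : IsCompact (region c b R) := by
  refine Metric.isCompact_of_isClosed_isBounded ?_ ?_
  · have h1 : region c b R = {t : ℝ | |t| ≤ R} ∩
        ⋂ i, ⋂ k : ℕ, {t : ℝ | 1 / ((R : ℝ) + 1) ≤ |(c i : ℝ) * t + b i + k|} := by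
      ext z
      simp [region]
    rw [h1]
    refine (isClosed_le continuous_abs continuous_const).inter
      (isClosed_iInter fun i => isClosed_iInter fun k => ?_)
    exact isClosed_le continuous_const (by fun_prop)
  · refine (Metric.isBounded_closedBall (x := (0 : ℝ)) (r := R)).subset fun z hz => ?_
    simpa [Real.norm_eq_abs] using hz.1

/-- the data of a rational line, a compact set, a degree and an exponent -/
structure Line where
  (r : ℕ)
  (c : {c : Fin r → ℤ // ∀ i, c i ≠ 0})
  (b : Fin r → ℚ)
  (δ A R : ℕ)

instance : Countable Line := by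
  let f : Line → (Σ r : ℕ, {c : Fin r → ℤ // ∀ i, c i ≠ 0} × (Fin r → ℚ) × ℕ × ℕ × ℕ) :=
    fun l => ⟨l.r, l.c, l.b, l.δ, l.A, l.R⟩
  refine Function.Injective.countable (f := f) ?_
  rintro ⟨r, c, b, δ, A, R⟩ ⟨r', c', b', δ', A', R'⟩ h
  simp only [f, Sigma.mk.injEq] at h
  obtain ⟨rfl, h⟩ := h
  rw [heq_eq_eq, Prod.mk.injEq, Prod.mk.injEq, Prod.mk.injEq, Prod.mk.injEq] at h
  obtain ⟨rfl, rfl, rfl, rfl, rfl⟩ := h
  rfl

/-- **Theorem.** Let `q ≥ 2`. There is one rule `σ` such that for all `r`, nonzero integers `c_i`, rational numbers `b_i`,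
all `δ`, `A`, `R` and `κ > 0` there is `C` with the following property. If more than `κ D + C` of the first `n` digits of
a sequence are the ones named by the rule, then for every integer `H` with at most `D` digits which begins with these
`n` digits and ALL rational numbers `x` of height `H` in the set `region c b R`: if
`Γ(c_1 x + b_1) ⋯ Γ(c_r x + b_r) = β π ^ (r / 2)`, with `β` a root of a nonzero integer polynomial of degree at most `δ`
and with coefficients at most `H ^ A`, then the identity of Rohrlich's conjecture holds. -/
theorem result {q : ℕ} (hq : 2 ≤ q) :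
    ∃ σ : List ℕ → ℕ, (∀ u, σ u < q) ∧ ∀ (r : ℕ) (c : Fin r → ℤ), (∀ i, c i ≠ 0) → ∀ (b : Fin r → ℚ)
      (δ A R : ℕ) (κ : ℝ), 0 < κ → ∃ C : ℝ, ∀ (x : ℕ → ℕ) (n D : ℕ), κ * D + C < moves σ x n →
      ∀ H : ℕ, (Nat.digits q H).length ≤ D → play x n <+: (Nat.digits q H).reverse →
        ∀ t : ℚ, height t = H → (t : ℝ) ∈ region c b R →
          AlgebraicMultiple (fun i => c i * t + b i) δ ((H : ℝ) ^ A) → Identity fun i => c i * t + b i := by
  obtain ⟨σ, hσb, hσ⟩ := Pool.Agent.H48.GM.height_game (ι := Line) (X := fun _ => ℚ) (fun _ x => height x)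
    (fun l _ N => Failures l.c.1 l.b l.δ (region l.c.1 l.b l.R) (l.A : ℝ) N)
    (fun l ε hε => by
      obtain ⟨C, T₀, h⟩ := RationalLines.result.1 l.r l.c.1 l.c.2 l.b l.δ (region l.c.1 l.b l.R)
        (region_compact _ _ _) (by
          intro t ht i k h1
          have h2 := ht.2 i k
          rw [h1, neg_add_cancel, abs_zero] at h2
          have h4 : (0 : ℝ) < 1 / ((l.R : ℝ) + 1) := by positivity
          linarith) l.A ε hε
      exact ⟨0, C, T₀, h⟩)
    (by
      rintro l B B' n N t - - hn hnN - ⟨h1, h2, h3, ⟨β, h4, p, h5, h6, h7, h8⟩, h9⟩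
      refine ⟨h1, h2.trans hnN, h3.trans hnN, ⟨β, h4, p, h5, h6, fun k => (h7 k).trans ?_, h8⟩, h9⟩
      exact Real.rpow_le_rpow (by linarith) hnN (Nat.cast_nonneg _)) hq
  refine ⟨σ, hσb, fun r c hc b δ A R κ hκ => ?_⟩
  obtain ⟨B, C, hC⟩ := hσ ⟨r, ⟨c, hc⟩, b, δ, A, R⟩ κ hκ
  refine ⟨C, fun x n D hmov H hH hpre t ht htL hal => ?_⟩
  by_contra hcon
  refine hC x n D hmov H hH hpre t ht ⟨htL, ?_, ?_, ?_, hcon⟩
  · have h1 : t.num.natAbs ≤ H := by rw [← ht]; exact le_max_left _ _
    have h2 : |(t.num : ℝ)| = (t.num.natAbs : ℝ) := by rw [Nat.cast_natAbs, Int.cast_abs]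
    rw [h2]
    exact_mod_cast h1
  · have h1 : t.den ≤ H := by rw [← ht]; exact le_max_right _ _
    exact_mod_cast h1
  · rw [Real.rpow_natCast]
    exact hal

end Pool.Agent.Results.MP_c2409d_nt.HeightGame
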