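import Mathlib
import Pool.Agent.H48.IG.GamFun
import Pool.Agent.H48.IG.GamFail

/-!
# Rohrlich's conjecture for the products of gamma values over a large subset of every set of rational numbers of positive exponent

Let `X` be a bounded set of rational numbers which has, for all `T` of an infinite set `𝒯`, at least `T ^ ε` elements of
height at most `T`; for instance the numbers `1 / n`, or the numbers `1 / p ^ k`, `p` prime, or the numbers `1 / n` for the
members `n` of any sequence of integers of positive exponent. We show that `X` contains an infinite set `S` such that for ALL `r`, all integers `c_j ≥ 1`, all rational numbers `b_j`, all `β` in a given countable set `K` (for instance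
all the numbers `π ^ (s / 2)`) and all `δ`, `A` there are only finitely many `r`-tuples `(a_1, …, a_r)` of elements of `S`
(repetitions are allowed) for which `Γ(c_1 a_1 + b_1) ⋯ Γ(c_r a_r + b_r) = α β` with `α` algebraic of degree at most `δ` and
height at most `h ^ A`, `h` the largest of the heights of the `a_j`. For `β = π ^ (r / 2)` this is the open direction of
Rohrlich's conjecture, in bounded degree and polynomially bounded height, for all products of the values at the points of
`S`. For integers `c_j ≠ 0` of arbitrary signs the same is true if for every element `x` of `S` in the tuple the factors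
with `a_j = x` do not satisfy the identity of the conjecture identically in `x`.

The set `S` may be prescribed to be large: if `f (T) = T ^ o(1)`, then `S` can be chosen so that it has at least `f (T)`
elements of height at most `T` for all large `T` in `𝒯`.

Proof. The number of the exceptional points of a family in one rational parameter is `O(T ^ ε')`, uniformly in the
constants that occur; this is from the library (`RationalLines`), and `Pool/Agent/H48/IG/Gam.lean` repeats the proof for an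
arbitrary constant `u` in place of the power of `π` (`one_step`). We choose the elements `t_0, t_1, …` of `S`
recursively: at the step `s` the constants `u` are the quotients of products of values at the earlier elements by elements
of `K`. There are at most `s ^ (r + 1)` of them for each family, and for `t_s` there are at least `T ^ ε` candidates of height
at most `T` if `T` is larger than every fixed power of `s`. All families are taken into account, each from some step on.
The poles of the gamma function are removed by the functional equation.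
-/

set_option autoImplicit false

open Filter

namespace Pool.Agent.Results.MP_c2409d_nt.LargeSubsets

open Pool.Agent.H48.IG (Fails select shift H_tendsto height_finite fails_of_sum)

/-- The height of a rational number: the maximum of the absolute value of the numerator and of the denominator. -/
def height (x : ℚ) : ℕ := max x.num.natAbs x.den

/-- `α` is a root of a nonzero integer polynomial of degree at most `δ` with coefficients of absolute value at most
`H`. -/
def AlgLe (δ : ℕ) (H : ℝ) (α : ℂ) : Prop :=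
  ∃ q : Polynomial ℤ, q ≠ 0 ∧ q.natDegree ≤ δ ∧ (∀ k, |((q.coeff k : ℤ) : ℝ)| ≤ H) ∧
    Polynomial.aeval α q = 0

/-- The identity of the conjecture for the factors `Γ(c_j x + b_j)` with `j ∈ J`, as an identity in `x`: for all
rational `x` for which no `c_i x + b_i` is an integer, the sum of the numbers `{c_j x + b_j} - 1 / 2`, `j ∈ J`, is zero. -/
def Standard {r : ℕ} (c : Fin r → ℤ) (b : Fin r → ℚ) (J : Finset (Fin r)) : Prop :=
  ∀ x : ℚ, (∀ i, ∀ n : ℤ, (c i : ℚ) * x + b i ≠ n) →
    ∑ j ∈ J, (Int.fract ((c j : ℚ) * x + b j) - 1 / 2) = 0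

/-- The tuples `(a_1, …, a_r)` of elements of `S` such that no `c_j a_j + b_j` is one of the numbers `0, -1, -2, …` and
`Γ(c_1 a_1 + b_1) ⋯ Γ(c_r a_r + b_r) = α β` with `α` a root of a nonzero integer polynomial of degree at most `δ` with
coefficients of absolute value at most `h ^ A`, where `h` is the largest of the heights of the `a_j`. -/
def Exceptional {r : ℕ} (S : Set ℚ) (c : Fin r → ℤ) (b : Fin r → ℚ) (β : ℂ) (δ A : ℕ) :
    Set (Fin r → ℚ) :=
  {a | (∀ j, a j ∈ S) ∧ (∀ j, ∀ k : ℕ, (c j : ℚ) * a j + b j ≠ -k) ∧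
    ∃ α : ℂ, AlgLe δ (((Finset.univ.sup fun j => height (a j) : ℕ) : ℝ) ^ A) α ∧
      ∏ j, Complex.Gamma (((c j : ℚ) * a j + b j : ℚ) : ℂ) = α * β}

/-- a superpolynomially growing sequence in `𝒯` -/
theorem scales (𝒯 : Set ℕ) (h𝒯 : 𝒯.Infinite) (f : ℕ → ℝ)
    (hf : ∀ η : ℝ, 0 < η → ∀ᶠ T : ℕ in atTop, f T ≤ (T : ℝ) ^ η) :
    ∃ (g : ℕ → ℝ) (H : ℕ → ℕ), (∀ M : ℝ, ∀ᶠ T : ℕ in atTop, f T + M ≤ g T) ∧
      (∀ s : ℕ, H s ∈ 𝒯) ∧ (∀ s : ℕ, ∀ T ∈ 𝒯, (s : ℝ) < g T → H s ≤ T) ∧ Monotone H ∧
      ∀ η : ℝ, 0 < η → ∀ᶠ s : ℕ in atTop, (s : ℝ) ≤ (H s : ℝ) ^ η := by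
  classical
  set g : ℕ → ℝ := fun T => max (f T) 0 + Real.log T with hg
  have hlog : Tendsto (fun T : ℕ => Real.log (T : ℝ)) atTop atTop :=
    Real.tendsto_log_atTop.comp tendsto_natCast_atTop_atTop
  have hg1 : ∀ η : ℝ, 0 < η → ∀ᶠ T : ℕ in atTop, g T ≤ (T : ℝ) ^ η := by
    intro η hη
    have h1 : ∀ᶠ T : ℕ in atTop, Real.log (T : ℝ) ≤ (T : ℝ) ^ (η / 2) := by
      have h2 := (isLittleO_log_rpow_atTop (half_pos hη)).bound one_pos
      have h3 := tendsto_natCast_atTop_atTop.eventually h2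
      filter_upwards [h3, eventually_ge_atTop 1] with T hT hT1
      rw [one_mul, Real.norm_eq_abs, Real.norm_eq_abs] at hT
      rw [abs_of_nonneg (by positivity : (0 : ℝ) ≤ (T : ℝ) ^ (η / 2))] at hT
      exact (le_abs_self _).trans hT
    have h4 : Tendsto (fun T : ℕ => (T : ℝ) ^ (η / 2)) atTop atTop :=
      (tendsto_rpow_atTop (half_pos hη)).comp tendsto_natCast_atTop_atTop
    filter_upwards [h1, hf _ (half_pos hη), h4.eventually (eventually_ge_atTop 2),
      eventually_ge_atTop 1] with T h5 h6 h7 h8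
    have h9 : (0 : ℝ) < T := by exact_mod_cast h8
    have h10 : (T : ℝ) ^ η = (T : ℝ) ^ (η / 2) * (T : ℝ) ^ (η / 2) := by
      rw [← Real.rpow_add h9]
      ring_nf
    have h11 : max (f T) 0 ≤ (T : ℝ) ^ (η / 2) := max_le h6 (by positivity)
    rw [h10]
    simp only [hg]
    nlinarith
  have hne : ∀ s : ℕ, {T | T ∈ 𝒯 ∧ (s : ℝ) < g T}.Nonempty := by
    intro s
    obtain ⟨T₁, hT₁⟩ := eventually_atTop.1 (hlog.eventually (eventually_gt_atTop (s : ℝ)))
    obtain ⟨T, hT, hT'⟩ := h𝒯.exists_gt T₁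
    refine ⟨T, hT, lt_of_lt_of_le (hT₁ T hT'.le) ?_⟩
    simp only [hg]
    linarith [le_max_right (f T) 0]
  set H : ℕ → ℕ := fun s => sInf {T | T ∈ 𝒯 ∧ (s : ℝ) < g T} with hH
  have hHm : ∀ s, H s ∈ 𝒯 ∧ (s : ℝ) < g (H s) := fun s => Nat.sInf_mem (hne s)
  refine ⟨g, H, ?_, fun s => (hHm s).1, fun s T hT hs => Nat.sInf_le ⟨hT, hs⟩, ?_, ?_⟩
  · intro M
    filter_upwards [hlog.eventually (eventually_ge_atTop M)] with T hT
    simp only [hg]
    linarith [le_max_left (f T) 0]
  · intro s s' hss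
    refine Nat.sInf_le ⟨(hHm s').1, lt_of_le_of_lt ?_ (hHm s').2⟩
    exact_mod_cast hss
  · intro η hη
    obtain ⟨T₁, hT₁⟩ := eventually_atTop.1 (hg1 η hη)
    filter_upwards [eventually_ge_atTop (∑ T ∈ Finset.range T₁, ⌈|g T|⌉₊)] with s hs
    by_cases h : T₁ ≤ H s
    · exact (hHm s).2.le.trans (hT₁ _ h)
    · exfalso
      push Not at h
      have h1 : ⌈|g (H s)|⌉₊ ≤ ∑ T ∈ Finset.range T₁, ⌈|g T|⌉₊ :=
        Finset.single_le_sum (f := fun T => ⌈|g T|⌉₊) (fun _ _ => Nat.zero_le _)
          (Finset.mem_range.2 h)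
      have h2 : g (H s) ≤ s := by
        calc g (H s) ≤ |g (H s)| := le_abs_self _
          _ ≤ ⌈|g (H s)|⌉₊ := Nat.le_ceil _
          _ ≤ s := by exact_mod_cast h1.trans hs
      exact absurd (hHm s).2 (not_lt.2 h2)

theorem fails_shift {r : ℕ} (c : Fin r → ℤ) (b : Fin r → ℚ) (m : ℕ) (J : Finset (Fin r))
    (h : ¬ Standard c b J) : Fails c (fun j => b j + m) J := by
  unfold Standard at h
  push Not at h
  obtain ⟨x, hx, hne⟩ := h
  refine ⟨x, fun i n h => hx i (n - m) ?_, ?_⟩
  · push_cast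
    rw [← h]
    ring
  · have h1 : ∀ i ∈ J, (Int.fract ((c i : ℚ) * x + (b i + m)) - 1 / 2 : ℚ) =
        Int.fract ((c i : ℚ) * x + b i) - 1 / 2 := by
      intro i _
      rw [← add_assoc, Int.fract_add_natCast]
    rw [Finset.sum_congr rfl h1]
    exact hne

/-- **Large subsets.** Let `X` be a set of rational numbers in `[-R, R]` which has at least `T ^ ε` elements of height
at most `T` for all `T` of an infinite set `𝒯`, where `ε > 0`. Let `f (T) ≤ T ^ η` for all `η > 0` and all large `T`, and let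
`K` be a countable set of complex numbers. Then `X` contains an infinite set `S` which has at least `f (T)` elements of
height at most `T` for all large `T` in `𝒯`, and with the following properties.

(1) For all `r ≥ 1`, all integers `c_1, …, c_r ≥ 1`, all rational `b_1, …, b_r`, all `β` in `K` and all `δ`, `A` there are only
finitely many tuples `(a_1, …, a_r)` of elements of `S` such that no `c_j a_j + b_j` is one of the numbers `0, -1, -2, …` and
`Γ(c_1 a_1 + b_1) ⋯ Γ(c_r a_r + b_r) = α β` with `α` of degree at most `δ` and height at most `h ^ A`.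

(2) The same holds for integers `c_j ≠ 0` of arbitrary signs and all tuples such that for every `x` among the `a_j` the
factors with `a_j = x` do not satisfy the identity of the conjecture identically in `x`. -/
theorem result (X : Set ℚ) (R : ℝ) (hR : ∀ x ∈ X, |(x : ℝ)| ≤ R) (ε : ℝ) (hε : 0 < ε)
    (𝒯 : Set ℕ) (h𝒯 : 𝒯.Infinite)
    (hX : ∀ T ∈ 𝒯, (T : ℝ) ^ ε ≤ ({x ∈ X | height x ≤ T}.ncard : ℝ))
    (f : ℕ → ℝ) (hf : ∀ η : ℝ, 0 < η → ∀ᶠ T : ℕ in atTop, f T ≤ (T : ℝ) ^ η)
    (K : Set ℂ) (hK : K.Countable) :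
    ∃ S : Set ℚ, S ⊆ X ∧ S.Infinite ∧
      (∀ᶠ T : ℕ in atTop, T ∈ 𝒯 → f T ≤ ({x ∈ S | height x ≤ T}.ncard : ℝ)) ∧
      (∀ r : ℕ, 1 ≤ r → ∀ (c : Fin r → ℤ) (b : Fin r → ℚ), (∀ j, 1 ≤ c j) →
        ∀ β ∈ K, ∀ δ A : ℕ, (Exceptional S c b β δ A).Finite) ∧
      ∀ (r : ℕ) (c : Fin r → ℤ) (b : Fin r → ℚ), (∀ j, c j ≠ 0) → ∀ β ∈ K, ∀ δ A : ℕ,
        {a ∈ Exceptional S c b β δ A | ∀ j₀, ¬ Standard c b {j | a j = a j₀}}.Finite := by
  classical
  obtain ⟨g, H, hg, hH𝒯, hHle, hHm, hH⟩ := scales 𝒯 h𝒯 f hf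
  obtain ⟨s₀, t, ht, hE⟩ := select (Set.Icc (-R) R) isCompact_Icc ε hε X H hH (by
    intro s
    have h1 : {x ∈ X | (x : ℝ) ∈ Set.Icc (-R) R ∧ Pool.Agent.H48.IG.height x ≤ H s} =
        {x ∈ X | height x ≤ H s} := by
      ext x
      simp only [Set.mem_ofPred_eq]
      exact ⟨fun h => ⟨h.1, h.2.2⟩, fun h => ⟨h.1, abs_le.1 (hR x h.1), h.2⟩⟩
    rw [h1]
    exact hX _ (hH𝒯 s)) K hK
  have hinj : Set.InjOn t (Set.Ici s₀) := by
    intro s hs s' hs' h
    by_contra hne
    rcases lt_or_gt_of_ne hne with h1 | h1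
    · exact (ht s' hs').2.2.2 s h1 h.symm
    · exact (ht s hs).2.2.2 s' h1 h
  have hgen : ∀ (r : ℕ) (c : Fin r → ℤ) (b : Fin r → ℚ), (∀ j, c j ≠ 0) → ∀ β ∈ K, ∀ δ A : ℕ,
      {a ∈ Exceptional (t '' Set.Ici s₀) c b β δ A |
        ∀ j₀, ¬ Standard c b {j | a j = a j₀}}.Finite := by
    intro r c b hc β hβ δ A
    rcases Nat.eq_zero_or_pos r with hr | hr
    · subst hr
      exact Set.toFinite _
    set m : ℕ := ⌈∑ j, (|(c j : ℝ)| * |R| + |(b j : ℝ)|)⌉₊ + 1 with hm
    have hpos : ∀ y ∈ Set.Icc (-R) R, ∀ j, ∀ k : ℕ,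
        (c j : ℝ) * y + ((b j + m : ℚ) : ℝ) ≠ -k := by
      intro y hy j k h
      have h1 : |y| ≤ |R| := (abs_le.2 hy).trans (le_abs_self R)
      have h2 : |(c j : ℝ)| * |R| + |(b j : ℝ)| ≤ ∑ j, (|(c j : ℝ)| * |R| + |(b j : ℝ)|) :=
        Finset.single_le_sum (f := fun j => |(c j : ℝ)| * |R| + |(b j : ℝ)|)
          (fun _ _ => by positivity) (Finset.mem_univ j)
      have h3 : (∑ j, (|(c j : ℝ)| * |R| + |(b j : ℝ)|)) + 1 ≤ m := by
        rw [hm]
        push_cast
        linarith [Nat.le_ceil (∑ j, (|(c j : ℝ)| * |R| + |(b j : ℝ)|))]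
      have h4 : |(c j : ℝ) * y| ≤ |(c j : ℝ)| * |R| := by
        rw [abs_mul]
        exact mul_le_mul_of_nonneg_left h1 (abs_nonneg _)
      have h5 := neg_abs_le ((c j : ℝ) * y)
      have h6 := neg_abs_le (b j : ℝ)
      have h7 : (0 : ℝ) ≤ k := Nat.cast_nonneg k
      push_cast at h
      linarith
    obtain ⟨C, hC⟩ := shift c b m δ A
    have hfin := hE r c (fun j => b j + m) hc hpos β hβ δ (A + 2 * (m * r) * δ)
    obtain ⟨s₂, hs₂⟩ := eventually_atTop.1 ((H_tendsto H hH).eventually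
      (eventually_ge_atTop (C : ℝ)))
    refine ((hfin.union (Set.finite_Iic (fun _ : Fin r => s₂))).image
      (fun i j => t (i j))).subset ?_
    rintro a ⟨⟨haS, hap, α, hα, hprod⟩, hst⟩
    choose i hi hia using haS
    obtain ⟨j₁, -, hj₁⟩ := Finset.exists_max_image Finset.univ i ⟨⟨0, hr⟩, Finset.mem_univ _⟩
    have hle : ∀ j, i j ≤ i j₁ := fun j => hj₁ j (Finset.mem_univ j)
    refine ⟨i, ?_, funext hia⟩
    by_cases hs : i j₁ ≤ s₂
    · exact Or.inr fun j => (hle j).trans hs
    · left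
      push Not at hs
      have hCT : C ≤ H (i j₁) := by exact_mod_cast hs₂ _ hs.le
      have hht : ∀ j, height (a j) ≤ H (i j₁) := by
        intro j
        rw [← hia j]
        exact (ht (i j) (hi j)).2.2.1.trans (hHm (hle j))
      have hα' : Pool.Agent.H48.IG.AlgLe δ ((H (i j₁) : ℝ) ^ A) α := by
        refine Pool.Agent.H48.IG.AlgLe.mono ?_ hα
        refine pow_le_pow_left₀ (Nat.cast_nonneg _) ?_ _
        exact_mod_cast Finset.sup_le fun j _ => hht j
      obtain ⟨α', h1, h2⟩ := hC (H (i j₁)) hCT a hht hap α β hα' (by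
        rw [← hprod]
        refine Finset.prod_congr rfl fun j _ => ?_
        push_cast
        rfl)
      refine ⟨hi, ?_, j₁, α', hle, h1, ?_⟩
      · have h3 : Pool.Agent.H48.IG.top i = ({j | a j = a j₁} : Finset (Fin r)) := by
          ext j
          rw [Pool.Agent.H48.IG.top, Finset.mem_filter, Finset.mem_filter]
          refine and_congr_right fun _ => ⟨fun h => ?_, fun h => ?_⟩
          · rw [← hia j, ← hia j₁, le_antisymm (hle j) (h j₁)]
          · rw [← hia j, ← hia j₁] at h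
            rw [hinj (hi j) (hi j₁) h]
            exact hle
        rw [h3]
        exact fails_shift c b m _ (hst j₁)
      · rw [← h2]
        refine Finset.prod_congr rfl fun j _ => ?_
        rw [hia j]
  refine ⟨t '' Set.Ici s₀, ?_, (Set.Ici_infinite s₀).image hinj, ?_, ?_, hgen⟩
  · rintro _ ⟨s, hs, rfl⟩
    exact (ht s hs).1
  · filter_upwards [hg s₀] with T hT hT𝒯
    have h1 : t '' (Finset.Ico s₀ ⌈g T⌉₊ : Finset ℕ) ⊆ {x ∈ t '' Set.Ici s₀ | height x ≤ T} := by
      rintro _ ⟨s, hs, rfl⟩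
      rw [Finset.coe_Ico, Set.mem_Ico] at hs
      exact ⟨⟨s, hs.1, rfl⟩, (ht s hs.1).2.2.1.trans (hHle s T hT𝒯 (Nat.lt_ceil.1 hs.2))⟩
    have h2 := Set.ncard_le_ncard h1 ((height_finite T).subset fun x hx => hx.2)
    rw [Set.InjOn.ncard_image (hinj.mono fun s hs => by
      rw [Finset.coe_Ico, Set.mem_Ico] at hs
      exact hs.1), Set.ncard_coe_finset, Nat.card_Ico] at h2
    have h3 : g T - s₀ ≤ ((⌈g T⌉₊ - s₀ : ℕ) : ℝ) := by
      have h4 : (⌈g T⌉₊ : ℝ) - s₀ ≤ ((⌈g T⌉₊ - s₀ : ℕ) : ℝ) := by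
        rw [sub_le_iff_le_add]
        exact_mod_cast le_tsub_add
      linarith [Nat.le_ceil (g T)]
    have h5 : ((⌈g T⌉₊ - s₀ : ℕ) : ℝ) ≤ ({x ∈ t '' Set.Ici s₀ | height x ≤ T}.ncard : ℝ) := by
      exact_mod_cast h2
    linarith
  · intro r hr c b hc β hβ δ A
    refine (hgen r c b (fun j => by have := hc j; omega) β hβ δ A).subset fun a ha => ⟨ha, ?_⟩
    intro j₀ hst
    have h1 : ∑ j ∈ ({j | a j = a j₀} : Finset (Fin r)), c j ≠ 0 := by
      refine (Finset.sum_pos (fun j _ => by have := hc j; omega) ⟨j₀, ?_⟩).ne'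
      rw [Finset.mem_filter]
      exact ⟨Finset.mem_univ _, rfl⟩
    obtain ⟨x, hx, hne⟩ := fails_of_sum c (fun j => by have := hc j; omega) b _ h1
    exact hne (hst x hx)

end Pool.Agent.Results.MP_c2409d_nt.LargeSubsets
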