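import Mathlib
import Pool.Agent.H48.GM.ShortWindows
import Pool.Graph.R_pool_sql_team_seeded_35f281b4.Results.MP_c2409d_nt.CommensurableShortIntervals

set_option autoImplicit false

/-!
# Rohrlich's conjecture as a digit game on the real line: one rule for all products `Γ(c_1 t + x_1) ⋯ Γ(c_r t + x_r)`

Two players choose the digits of a real number one after the other; `t_n` are the truncated expansions. From the starting
files (`CommensurableShortIntervals`, one parameter): for one family and one `β`, every interval of length `T ^ (-δ)` has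
a bounded number of exceptional rational points of denominator at most `T`. New: the game theorem (`H48.GM.Window`): a
player who makes `O(log n)` of the choices number `δ n, …, n - 1`, following one rule, the same for all families, makes
`t_n` unexceptional, whatever the opponent does. So `O((log n)^2)` of the first `n` choices suffice for all the points
`t_n` from some point on.
-/

namespace Pool.Agent.Results.MP_c2409d_nt.TruncationGame

open Pool.Agent.H48.GM Real

/-- the truncated expansion `a + 0.z_0 z_1 … z_(n-1)` in base `b` -/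
def point (b : ℕ) (a : ℤ) (z : ℕ → ℕ) (n : ℕ) : ℚ :=
  a + ∑ i ∈ Finset.range n, (z i : ℚ) / (b : ℚ) ^ (i + 1)

/-- The condition of Rohrlich's conjecture, for every common denominator `D` of the numbers `a_i` and every `m` prime
to `D`: the sum of the fractional parts of the numbers `m a_i` is `r / 2`. -/
def Identity {r : ℕ} (a : Fin r → ℚ) : Prop :=
  ∀ D : ℕ, 0 < D → (∀ i, ∃ k : ℤ, D * a i = k) → ∀ m : ℕ, m.Coprime D → ∑ i, Int.fract (m * a i) = r / 2

/-- the numbers `exp(2 π i t / N)` and `p ^ (t / N)`, where `p` is one of the first `B` prime numbers -/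
noncomputable def elementary (N B : ℕ) (t : ℚ) (v : Option (Fin B)) : ℂ :=
  v.elim (Complex.exp (2 * Real.pi * Complex.I * (t / N)))
    fun p => (((Nat.nth Nat.Prime p : ℝ) ^ ((t : ℝ) / N) : ℝ) : ℂ)

/-- `α` satisfies with the elementary numbers a nontrivial polynomial relation of degree at most `d` in each variable,
whose coefficients are integers of absolute value at most `H` (for instance `α` is an algebraic number of degree at most
`d` and height at most `H`). -/
def Simple (N B d : ℕ) (H : ℝ) (t : ℚ) (α : ℂ) : Prop :=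
  ∃ P : MvPolynomial (Option (Option (Fin B))) ℤ, P ≠ 0 ∧ (∀ v, P.degreeOf v ≤ d) ∧
    (∀ s, |((P.coeff s : ℤ) : ℝ)| ≤ H) ∧ MvPolynomial.aeval (fun o => o.elim α (elementary N B t)) P = 0

/-- The identity of Rohrlich's conjecture fails for the arguments `a_i = c_i t + x_i`, and nevertheless the product of the
`Γ(a_i)` is `α β` with a simple number `α`. -/
def Exceptional {r : ℕ} (c x : Fin r → ℚ) (N B d : ℕ) (H : ℝ) (β : ℂ) (t : ℚ) : Prop :=
  ¬ Identity (fun i => c i * t + x i) ∧
    ∃ α : ℂ, ((∏ i, Real.Gamma (((c i * t + x i : ℚ)) : ℝ) : ℝ) : ℂ) = α * β ∧ Simple N B d H t α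

/-- There is no pole of a factor `Γ(c_i s + x_i)` in the interval `[u, v]`. -/
def NoPole {r : ℕ} (c x : Fin r → ℚ) (u v : ℚ) : Prop :=
  (∀ i, c i ≠ 0) ∧ ∀ i (s : ℝ), (u : ℝ) ≤ s → s ≤ v → ∀ k : ℕ, (c i : ℝ) * s + x i ≠ -k

theorem simple_iff {N B d : ℕ} {H : ℝ} {t : ℚ} {α : ℂ} (h : Simple N B d H t α) :
    Pool.Agent.Results.MP_c2409d_nt.CommensurableShortIntervals.Simple N B d H (fun _ : Fin 1 => t) α := by
  classical
  obtain ⟨P, h1, h2, h3, h4⟩ := h
  let f : Option (Option (Fin B)) → Option (Fin 1 × Option (Fin B)) := Option.map fun v => (0, v)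
  have hf : Function.Injective f := Option.map_injective fun v w h => (Prod.mk.inj h).2
  refine ⟨MvPolynomial.rename f P, ?_, ?_, ?_, ?_⟩
  · intro h
    exact h1 (MvPolynomial.rename_injective f hf (by rw [h, map_zero]))
  · intro v
    rcases v with _ | ⟨z, v⟩
    · rw [show (none : Option (Fin 1 × Option (Fin B))) = f none from rfl, MvPolynomial.degreeOf_rename_of_injective hf]
      exact h2 _
    · have : (some (z, v) : Option (Fin 1 × Option (Fin B))) = f (some v) := by
        rw [Subsingleton.elim z 0]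
        rfl
      rw [this, MvPolynomial.degreeOf_rename_of_injective hf]
      exact h2 _
  · intro s
    by_cases hs : ∃ u : Option (Option (Fin B)) →₀ ℕ, u.mapDomain f = s
    · obtain ⟨u, rfl⟩ := hs
      rw [MvPolynomial.coeff_rename_mapDomain f hf]
      exact h3 u
    · have h0 : (MvPolynomial.rename f P).coeff s = 0 := by
        by_contra hne
        obtain ⟨u, hu, -⟩ := MvPolynomial.coeff_rename_ne_zero f P s hne
        exact hs ⟨u, hu⟩
      rw [h0, Int.cast_zero, abs_zero]
      have := h3 0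
      exact (abs_nonneg _).trans this
  · rw [MvPolynomial.aeval_rename]
    have : ((fun o : Option (Fin 1 × Option (Fin B)) => o.elim α
        (Pool.Agent.Results.MP_c2409d_nt.CommensurableShortIntervals.elementary N B (fun _ : Fin 1 => t))) ∘ f) =
        fun o => o.elim α (elementary N B t) := by
      funext o
      rcases o with _ | v
      · rfl
      · rfl
    rw [this]
    exact h4

theorem short {r : ℕ} (c x : Fin r → ℚ) (u v : ℚ) (hp : NoPole c x u v) (N B d A : ℕ) (hN : 0 < N) (β : ℂ)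
    (hβ : β ≠ 0) (δ : ℝ) (hδ : 0 < δ) :
    ∃ (C : ℕ) (T₀ : ℝ), ∀ T : ℝ, T₀ ≤ T → ∀ Y : Finset ℚ, (∀ q ∈ Y, (q.den : ℝ) ≤ T) →
      (∀ q ∈ Y, (u ≤ q ∧ q ≤ v) ∧ Exceptional c x N B d (T ^ A) β q) →
      (∀ q ∈ Y, ∀ q' ∈ Y, |(q : ℝ) - q'| ≤ T ^ (-δ)) → Y.card ≤ C := by
  classical
  obtain ⟨C, T₀, h⟩ := Pool.Agent.Results.MP_c2409d_nt.CommensurableShortIntervals.result 1 r c hp.1 x
    (fun _ => 0) (u : ℝ) (v : ℝ) hp.2 N B d hN A δ hδ
  refine ⟨⌈C⌉₊, T₀, fun T hT Y hY1 hY2 hY3 => ?_⟩
  have h1 := h β hβ T hT (fun _ => Y) (fun _ q hq => ⟨by exact_mod_cast (hY2 q hq).1.1,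
    by exact_mod_cast (hY2 q hq).1.2, hY1 q hq⟩) (fun _ => hY3)
  have h2 : ∑ k : Fin 1, ∏ i ∈ Finset.univ.erase k, (((fun _ : Fin 1 => Y) i).card : ℝ) = 1 := by
    rw [Fin.sum_univ_one]
    have : (Finset.univ : Finset (Fin 1)).erase 0 = ∅ := by decide
    rw [this, Finset.prod_empty]
  rw [h2, mul_one] at h1
  set S := Pool.Agent.Results.MP_c2409d_nt.CommensurableShortIntervals.Exceptional c x (fun _ => (0 : Fin 1)) N B d
    (T ^ (A : ℝ)) β (fun _ => Y) with hS
  have hSfin : S.Finite := by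
    refine (Finset.finite_toSet (Fintype.piFinset fun _ : Fin 1 => Y)).subset ?_
    rintro q ⟨hq, -⟩
    rw [Finset.mem_coe, Fintype.mem_piFinset]
    exact hq
  have h3 : (fun (q : ℚ) (_ : Fin 1) => q) '' (Y : Set ℚ) ⊆ S := by
    rintro _ ⟨q, hq, rfl⟩
    obtain ⟨-, h4, α, h5, h6⟩ := hY2 q hq
    refine ⟨fun _ => hq, ?_, α, ?_, ?_⟩
    · exact h4
    · exact h5
    · rw [rpow_natCast]
      exact simple_iff h6
  have hinj : Function.Injective (fun (q : ℚ) (_ : Fin 1) => q) := fun p q h => congrFun h 0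
  have h4 : Y.card ≤ S.ncard := by
    rw [← Set.ncard_coe_finset, ← Set.ncard_image_of_injective _ hinj]
    exact Set.ncard_le_ncard h3 hSfin
  have h5 : (Y.card : ℝ) ≤ ⌈C⌉₊ := by
    have : (Y.card : ℝ) ≤ S.ncard := by exact_mod_cast h4
    exact this.trans (h1.trans (Nat.le_ceil C))
  exact_mod_cast h5

/-- the data of a family: `r`, `c`, `x`, then `a`, `u`, `v`, then `k`, `N`, `B`, `d`, `A` -/
abbrev Index : Type := (Σ r : ℕ, (Fin r → ℚ) × (Fin r → ℚ)) × (ℤ × ℚ × ℚ) × ℕ × ℕ × ℕ × ℕ × ℕ

/-- **The truncation game for Rohrlich's conjecture.** Let `b ≥ 2` be a base and `β_0, β_1, …` any sequence of nonzero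
complex numbers, for instance all the powers `π ^ (s / 2)`. There is a rule `σ`, which prescribes a digit after every
finite sequence of digits, such that the following holds for ALL `r`, all rational `c_i ≠ 0` and `x_i`, `i ≤ r`, all
rational intervals `[u, v]` without poles of the `Γ(c_i s + x_i)`, all `β = β_k`, all `N`, `B`, `d`, `A`, all integers `a`
and all `δ > 0`, with constants `K` and `C` depending on these.

Let `t_n = a + 0.z_0 z_1 … z_(n-1)` be the truncated expansions given by digits `z_0, z_1, …`. If more than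
`K log n + C` of the digits `z_i`, `δ n ≤ i < n`, have been chosen according to the rule (the other ones in any way, by an
opponent, who also decides when the player with the rule is to move) and `u ≤ t_n ≤ v`, then the open direction of
Rohrlich's conjecture holds at `t_n`: the identity for the fractional parts holds for the arguments `a_i = c_i t_n + x_i`, or the product of the
`Γ(a_i)` is not `α β` with a number `α` of degree at most `d` and height at most `(b ^ n) ^ A` over the numbers
`exp(2 π i t_n / N)` and `p ^ (t_n / N)`, `p` one of the first `B` primes. -/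
theorem result (b : ℕ) (hb : 2 ≤ b) (β : ℕ → ℂ) (hβ : ∀ k, β k ≠ 0) :
    ∃ σ : List ℕ → ℕ, (∀ u, σ u < b) ∧
      ∀ (r : ℕ) (c x : Fin r → ℚ) (u v : ℚ), NoPole c x u v →
      ∀ (a : ℤ) (k N B d A : ℕ), 0 < N → ∀ δ : ℝ, 0 < δ → ∃ K C : ℝ, ∀ z : ℕ → ℕ, (∀ i, z i < b) →
        ∀ n : ℕ, 1 ≤ n → K * log n + C < (moves σ z n : ℝ) - moves σ z ⌊δ * n⌋₊ →
        u ≤ point b a z n → point b a z n ≤ v →
        ¬ Exceptional c x N B d (((b : ℝ) ^ n) ^ A) (β k) (point b a z n) := by
  classical
  obtain ⟨σ, hσb, hσ⟩ := window_game (ι := Index) hb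
    (fun i => {w | (NoPole i.1.2.1 i.1.2.2 i.2.1.2.1 i.2.1.2.2 ∧ 0 < i.2.2.2.1) ∧
      (i.2.1.2.1 ≤ i.2.1.1 + val b w ∧ i.2.1.1 + val b w ≤ i.2.1.2.2) ∧
      Exceptional i.1.2.1 i.1.2.2 i.2.2.2.1 i.2.2.2.2.1 i.2.2.2.2.2.1 (((b : ℝ) ^ w.length) ^ i.2.2.2.2.2.2)
        (β i.2.2.1) (i.2.1.1 + val b w)}) (by
      rintro ⟨⟨r, c, x⟩, ⟨a, u, v⟩, k, N, B, d, A⟩ g
      obtain ⟨C, hC⟩ := short_windows hb a (fun T q => (NoPole c x u v ∧ 0 < N) ∧ (u ≤ q ∧ q ≤ v) ∧
          Exceptional c x N B d (T ^ A) (β k) q) (by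
        intro δ hδ
        by_cases hc : NoPole c x u v ∧ 0 < N
        · obtain ⟨C, T₀, h⟩ := short c x u v hc.1 N B d A hc.2 (β k) (hβ k) δ hδ
          exact ⟨C, T₀, fun T hT Y hY1 hY2 hY3 =>
            h T hT Y (fun q hq => (hY1 q hq).2.2) (fun q hq => (hY2 q hq).2) hY3⟩
        · refine ⟨0, 0, fun T _ Y _ hYP _ => ?_⟩
          rcases Y.eq_empty_or_nonempty with hYe | ⟨y, hy⟩
          · rw [hYe, Finset.card_empty]
          · exact absurd (hYP y hy).1 hc) g
      refine ⟨C, fun p l hp hl => ?_⟩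
      refine le_trans (le_of_eq ?_) (hC p l hp hl)
      congr 1
      ext w
      simp only [Set.mem_setOf_eq]
      constructor
      · rintro ⟨h1, h2, h3⟩
        subst h1
        exact ⟨rfl, h2, h3⟩
      · rintro ⟨h1, h2, h3⟩
        subst h1
        exact ⟨rfl, h2, h3⟩)
  refine ⟨σ, hσb, fun r c x u v hp a k N B d A hN δ hδ => ?_⟩
  obtain ⟨K, C, hC⟩ := hσ ⟨⟨r, c, x⟩, ⟨a, u, v⟩, k, N, B, d, A⟩ δ hδ
  refine ⟨K, C, fun z hz n hn hmov hu hv hE => ?_⟩
  have h1 := hC z hz n hn hmov
  have h2 : ((a : ℚ) + val b (play z n)) = point b a z n := by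
    rw [val_play hb]
    rfl
  apply h1
  simp only [Set.mem_setOf_eq, play_length, h2]
  exact ⟨⟨hp, hN⟩, ⟨hu, hv⟩, hE⟩

end Pool.Agent.Results.MP_c2409d_nt.TruncationGame
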