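import Mathlib
import Pool.Agent.H48.GM.Windows
import Pool.Graph.R_seed8.Results.MP_c2409d_nt.OneParameter

set_option autoImplicit false

/-!
# Rohrlich's conjecture: one rule for the digits avoids the exceptions of all families `Γ(x_1 + y_1/q) ⋯ Γ(x_r + y_r/q)`

From the starting files (`MP_c2409d_nt.OneParameter`): for one family and one `β` the integers `q` for which the product
is an algebraic multiple of `β` in bounded degree and polynomially bounded height have a bounded number of members in
every window `[N, N ^ 2]`. New: the compass theorem for countably many families at once (`H48.GM.Universal`,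
`H48.GM.Windows`), that is, the game: a player who chooses only very few of the digits of `q` avoids all the exceptions
of all families, whatever the opponent does with the other digits.
-/

namespace Pool.Agent.Results.MP_c2409d_nt.UniversalCompass

open Pool.Agent.H48.GM Real
open Pool.Agent.Results.MP_c2409d_nt.OneParameter (AlgLe)

/-- The rational numbers `x_j`, `y_j` define an admissible family: all `y_j` are nonzero, and for some rational `w` the
numbers of the indices `j` with `y_j > 0` and with `y_j < 0`, for which `x_j + y_j w` is an integer, are different (for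
instance all `y_j` are positive). -/
def Admissible {r : ℕ} (x y : Fin r → ℚ) : Prop :=
  (∀ j, y j ≠ 0) ∧ ∃ w : ℚ, {j | 0 < y j ∧ ∃ z : ℤ, x j + y j * w = z}.ncard ≠
    {j | y j < 0 ∧ ∃ z : ℤ, x j + y j * w = z}.ncard

/-- The product of the `Γ (x_j + y_j / q)` is the product of `β` and of an algebraic number of degree at most `d` and
height at most `q ^ A`. -/
def Exceptional {r : ℕ} (x y : Fin r → ℚ) (β : ℂ) (d A q : ℕ) : Prop :=
  ∃ α : ℂ, AlgLe d ((q : ℝ) ^ A) α ∧ ∏ j, Complex.Gamma ((x j : ℂ) + y j / q) = α * β

/-- all families together with the bounds for degree and height and the number of `β` in a sequence -/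
abbrev Index : Type := (Σ r : ℕ, {p : (Fin r → ℚ) × (Fin r → ℚ) // Admissible p.1 p.2}) × ℕ × ℕ × ℕ

/-- **One rule for all families.** Let `b ≥ 2` be a base and `β_0, β_1, …` any sequence of complex numbers, for instance
all the powers `π ^ (s / 2)`. There is a rule `σ`, which prescribes a digit after every finite sequence of digits, such
that the following holds for ALL admissible families of arguments `x_j + y_j / q`, all `β = β_k`, all degrees `d`, all
exponents `A` and all `ε > 0`, with a constant `C` depending on these.

Let the digits of an integer `q` be chosen one after the other, leading digit first. If among the first `n` digits more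
than `(1 + ε) log_b log D + C` have been chosen according to the rule (the other ones in any way, by an opponent, who
also decides when the player with the rule is to move), then for ALL integers `q` with at most `D` digits which begin
with these `n` digits the product `Γ(x_1 + y_1 / q) ⋯ Γ(x_r + y_r / q)` is not a multiple `α β` with an algebraic number
`α` of degree at most `d` and height at most `q ^ A`. -/
theorem result (b : ℕ) (hb : 2 ≤ b) (β : ℕ → ℂ) :
    ∃ σ : List ℕ → ℕ, (∀ u, σ u < b) ∧
      ∀ (r : ℕ) (x y : Fin r → ℚ), Admissible x y → ∀ (k d A : ℕ) (ε : ℝ), 0 < ε → ∃ C : ℝ,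
        ∀ (z : ℕ → ℕ) (n D : ℕ), 3 ≤ D → (1 + ε) * logb b (log D) + C < moves σ z n →
        ∀ q : ℕ, (Nat.digits b q).length ≤ D → play z n <+: (Nat.digits b q).reverse →
          ¬ Exceptional x y (β k) d A q := by
  obtain ⟨σ, hσb, hσ⟩ := loglog_game (ι := Index) hb
    (fun i => {q | Exceptional i.1.2.1.1 i.1.2.1.2 (β i.2.1) i.2.2.1 i.2.2.2 q}) (by
      rintro ⟨⟨r, ⟨x, y⟩, hy, w, hw⟩, k, d, A⟩
      obtain ⟨Z, hZ⟩ := Pool.Agent.Results.MP_c2409d_nt.OneParameter.result x y hy w hw d A 2
      refine ⟨Z, fun N hN => ?_⟩
      refine le_trans (le_of_eq ?_) (hZ (β k) N hN)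
      congr 1
      ext q
      simp only [Set.mem_setOf_eq, Exceptional, rpow_natCast])
  refine ⟨σ, hσb, fun r x y hxy k d A ε hε => ?_⟩
  obtain ⟨C, hC⟩ := hσ ⟨⟨r, ⟨x, y⟩, hxy⟩, k, d, A⟩ ε hε
  exact ⟨C, hC⟩

end Pool.Agent.Results.MP_c2409d_nt.UniversalCompass
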